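import Pool.Agent.TH455.TFA.Cov
import Pool.Agent.TH497.BF.Fin

set_option autoImplicit false
set_option linter.unusedSectionVars false

/-! # Berge–Fulkerson covers for treewidth at most four, in the usual terms -/

namespace Pool.Agent.TH455.TFA

open Finset

variable {V E : Type} [Fintype V] [DecidableEq V] [Fintype E] [DecidableEq E]

theorem six_tw {src dst : E → V} (hI : ∀ e, ¬ IsIsthmus src dst e)
    (hT : TreewidthLE src dst 4) : Six src dst :=
  TH497.BF.bf4 (td_of hT) (br_of hI)

/-- the complement of a 2-factor of a cubic graph is a perfect matching -/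
theorem compl_one {src dst : E → V} {C : Finset E} {v : V}
    (h3 : ∑ e, ((if src e = v then 1 else 0) + (if dst e = v then 1 else 0)) = 3)
    (h2 : ∑ e ∈ C, ((if src e = v then 1 else 0) + (if dst e = v then 1 else 0)) = 2) :
    ∑ e ∈ Cᶜ, ((if src e = v then 1 else 0) + (if dst e = v then 1 else 0)) = 1 := by
  have h := sum_add_sum_compl C
    (fun e => ((if src e = v then 1 else 0) + (if dst e = v then 1 else 0)))
  rw [h2, h3] at h
  omega

/-- a cycle has an even number of edges in every cut -/
theorem cut_even {src dst : E → V} {C : Finset E} (hC : Cyc src dst C) (X : Finset V) :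
    Even (C.filter (fun e => ¬ (src e ∈ X ↔ dst e ∈ X))).card := by
  have h1 : Even (∑ v ∈ X, ∑ e ∈ C, ((if src e = v then 1 else 0) +
      (if dst e = v then 1 else 0))) := even_sum _ (fun v _ => hC v)
  rw [sum_comm] at h1
  have h2 : ∀ e, (∑ v ∈ X, ((if src e = v then 1 else 0) + (if dst e = v then 1 else 0))) =
      (if src e ∈ X then 1 else 0) + (if dst e ∈ X then 1 else 0) := by
    intro e
    rw [sum_add_distrib, sum_ite_eq, sum_ite_eq]
  rw [sum_congr rfl fun e _ => h2 e] at h1
  rw [← ZMod.natCast_eq_zero_iff_even] at h1 ⊢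
  refine Eq.trans ?_ h1
  rw [card_filter, Nat.cast_sum, Nat.cast_sum]
  refine sum_congr rfl fun e _ => ?_
  by_cases a : src e ∈ X <;> by_cases b : dst e ∈ X <;> simp [a, b]
  decide

/-- an odd cut is not contained in two of the three perfect matchings -/
theorem two_pm {src dst : E → V} (h : Six src dst)
    (h3 : ∀ v, ∑ e, ((if src e = v then 1 else 0) + (if dst e = v then 1 else 0)) = 3) :
    ∃ M₁ M₂ : Finset E,
      (∀ v, ∑ e ∈ M₁, ((if src e = v then 1 else 0) + (if dst e = v then 1 else 0)) = 1) ∧
      (∀ v, ∑ e ∈ M₂, ((if src e = v then 1 else 0) + (if dst e = v then 1 else 0)) = 1) ∧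
      ∀ X : Finset V, Odd (univ.filter (fun e => ¬ (src e ∈ X ↔ dst e ∈ X))).card →
        ¬ univ.filter (fun e => ¬ (src e ∈ X ↔ dst e ∈ X)) ⊆ M₁ ∩ M₂ := by
  obtain ⟨C, hC, h4⟩ := h
  refine ⟨(C 0)ᶜ, (C 1)ᶜ, fun v => compl_one (h3 v) (factor hC h4 v (h3 v) 0),
    fun v => compl_one (h3 v) (factor hC h4 v (h3 v) 1), fun X hX hsub => ?_⟩
  have h5 := cut_even (hC 2) X
  have h6 : univ.filter (fun e => ¬ (src e ∈ X ↔ dst e ∈ X)) =
      (C 2).filter (fun e => ¬ (src e ∈ X ↔ dst e ∈ X)) := by
    apply subset_antisymm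
    · intro e he
      have h7 := hsub he
      rw [mem_inter, mem_compl, mem_compl] at h7
      rw [mem_filter] at he ⊢
      refine ⟨?_, he.2⟩
      rcases three_cover h4 (i := 0) (j := 1) (k := 2) (by decide) (by decide) (by decide) e
        with h | h | h
      · exact absurd h h7.1
      · exact absurd h h7.2
      · exact h
    · exact filter_subset_filter _ (subset_univ _)
  rw [h6] at hX
  exact (Nat.not_even_iff_odd.mpr hX) h5

end Pool.Agent.TH455.TFA
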