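import Pool.Agent.TH455.TFA.BF

set_option autoImplicit false
set_option linter.unusedSectionVars false

/-! # Double covers by perfect matchings of sums of cubic graphs -/

namespace Pool.Agent.TH455.TFA

open Finset

variable {V E : Type} [Fintype V] [DecidableEq V] [Fintype E] [DecidableEq E]

/-- every vertex has degree one in `M` -/
def Pm (src dst : E → V) (M : Finset E) : Prop :=
  ∀ v, ∑ e ∈ M, ((if src e = v then 1 else 0) + (if dst e = v then 1 else 0)) = 1

/-- six perfect matchings of a cubic graph -/
theorem six_pm {src dst : E → V} (h : Six src dst)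
    (h3 : ∀ v, ∑ e, ((if src e = v then 1 else 0) + (if dst e = v then 1 else 0)) = 3) :
    ∃ P : Fin 6 → Finset E, (∀ i, Pm src dst (P i)) ∧
      ∀ e, (univ.filter (fun i => e ∈ P i)).card = 2 := by
  obtain ⟨C, hC, h4⟩ := h
  refine ⟨fun i => (C i)ᶜ, fun i v => compl_one (h3 v) (factor hC h4 v (h3 v) i), fun e => ?_⟩
  have h1 := card_filter_add_card_filter_not (s := (univ : Finset (Fin 6))) (fun i => e ∈ C i)
  rw [h4 e, card_univ, Fintype.card_fin] at h1
  have h2 : univ.filter (fun i => e ∈ (C i)ᶜ) = univ.filter (fun i => ¬ e ∈ C i) := by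
    ext i
    simp
  rw [h2]
  omega

/-- one class of the edges -/
theorem one_class {J : Type} [DecidableEq J] {src dst : E → V} (κ : E → J) (j : J)
    (h : Pm src dst (univ.filter (fun e => κ e = j)) ∨
      (Six (fun e : {e : E // κ e = j} => src e.1) (fun e => dst e.1) ∧
        ∀ v, ∑ e : {e : E // κ e = j}, ((if src e.1 = v then 1 else 0) +
          (if dst e.1 = v then 1 else 0)) = 3)) :
    ∃ M : Multiset (Finset E), (∀ P ∈ M, Pm src dst P) ∧
      ∀ e, M.countP (fun P => e ∈ P) = if κ e = j then 2 else 0 := by
  rcases h with h | ⟨h, h3⟩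
  · refine ⟨{univ.filter (fun e => κ e = j), univ.filter (fun e => κ e = j)}, ?_, fun e => ?_⟩
    · intro P hP
      simp only [Multiset.insert_eq_cons, Multiset.mem_cons, Multiset.mem_singleton, or_self] at hP
      rw [hP]; exact h
    · rw [Multiset.insert_eq_cons]
      by_cases he : κ e = j
      · rw [if_pos he, Multiset.countP_cons_of_pos _ (by simpa using he),
          ← Multiset.cons_zero, Multiset.countP_cons_of_pos _ (by simpa using he)]
        rfl
      · rw [if_neg he, Multiset.countP_cons_of_neg _ (by simpa using he),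
          ← Multiset.cons_zero, Multiset.countP_cons_of_neg _ (by simpa using he)]
        rfl
  · obtain ⟨P, hP, h2⟩ := six_pm h h3
    refine ⟨(univ : Finset (Fin 6)).val.map
      (fun i => (P i).map (Function.Embedding.subtype (fun e => κ e = j))), ?_, fun e => ?_⟩
    · intro Q hQ
      rw [Multiset.mem_map] at hQ
      obtain ⟨i, _, rfl⟩ := hQ
      intro v
      rw [sum_map]
      exact hP i v
    · rw [Multiset.countP_map]
      by_cases he : κ e = j
      · rw [if_pos he, ← h2 ⟨e, he⟩]
        change ((univ : Finset (Fin 6)).filter _).card = _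
        congr 1
        ext i
        simp [he]
      · rw [if_neg he]
        change ((univ : Finset (Fin 6)).filter _).card = _
        rw [card_eq_zero, filter_eq_empty_iff]
        intro i _ hi
        rw [mem_map] at hi
        obtain ⟨x, _, hx⟩ := hi
        exact he (hx ▸ x.2)

/-- all classes -/
theorem all_classes {J : Type} [DecidableEq J] [Fintype J] {src dst : E → V} (κ : E → J)
    (h : ∀ j, Pm src dst (univ.filter (fun e => κ e = j)) ∨
      (Six (fun e : {e : E // κ e = j} => src e.1) (fun e => dst e.1) ∧
        ∀ v, ∑ e : {e : E // κ e = j}, ((if src e.1 = v then 1 else 0) +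
          (if dst e.1 = v then 1 else 0)) = 3)) :
    ∃ M : Multiset (Finset E), (∀ P ∈ M, Pm src dst P) ∧
      ∀ e, M.countP (fun P => e ∈ P) = 2 := by
  classical
  choose M h1 h2 using fun j => one_class κ j (h j)
  refine ⟨∑ j, M j, ?_, fun e => ?_⟩
  · intro P hP
    rw [Multiset.mem_sum] at hP
    obtain ⟨j, _, hj⟩ := hP
    exact h1 j P hj
  · have h3 := map_sum (Multiset.countPAddMonoidHom (fun P : Finset E => e ∈ P)) M univ
    simp only [Multiset.coe_countPAddMonoidHom] at h3
    rw [h3, sum_congr rfl fun j _ => h2 j e]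
    simp

end Pool.Agent.TH455.TFA
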