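import Pool.Agent.TH455.TFA.BF

set_option autoImplicit false
set_option linter.unusedSectionVars false

/-! # Bipartite complements of two perfect matchings -/

namespace Pool.Agent.TH455.TFA

open Finset

variable {V E : Type} [Fintype V] [DecidableEq V] [Fintype E] [DecidableEq E]

/-- a set of edges all of whose cycles have an even number of edges is bipartite -/
theorem two_col {src dst : E → V} (H : Finset E)
    (hH : ∀ D ⊆ H, Cyc src dst D → Even D.card) :
    ∃ c : V → ZMod 2, ∀ e ∈ H, c (src e) ≠ c (dst e) := by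
  classical
  let L : (V → ZMod 2) →ₗ[ZMod 2] (E → ZMod 2) :=
    { toFun := fun f e => if e ∈ H then f (src e) + f (dst e) else 0
      map_add' := by
        intro f g
        funext e
        by_cases he : e ∈ H
        · simp only [he, if_true, Pi.add_apply]; ring
        · simp [he]
      map_smul' := by
        intro a f
        funext e
        by_cases he : e ∈ H
        · simp only [he, if_true, Pi.smul_apply, smul_eq_mul, RingHom.id_apply]; ring
        · simp [he] }
  by_cases hb : (fun e => if e ∈ H then (1 : ZMod 2) else 0) ∈ LinearMap.range L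
  · obtain ⟨c, hc⟩ := hb
    refine ⟨c, fun e he heq => ?_⟩
    have h1 := congrFun hc e
    change (if e ∈ H then c (src e) + c (dst e) else 0) = _ at h1
    rw [if_pos he, heq, CharTwo.add_self_eq_zero] at h1
    simp [he] at h1
  · exfalso
    obtain ⟨φ, h1, h2⟩ := Submodule.exists_dual_map_eq_bot_of_notMem hb inferInstance
    have h3 : ∀ f, φ (L f) = 0 := by
      intro f
      have h4 : φ (L f) ∈ (LinearMap.range L).map φ := Submodule.mem_map_of_mem ⟨f, rfl⟩
      rw [h2] at h4
      exact (Submodule.mem_bot _).mp h4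
    have hφ : ∀ x : E → ZMod 2, φ x = ∑ e, x e * φ (Pi.single e 1) := by
      intro x
      conv_lhs => rw [← Finset.univ_sum_single x]
      rw [map_sum]
      refine sum_congr rfl fun e _ => ?_
      have h4 : (Pi.single e (x e) : E → ZMod 2) = x e • Pi.single e 1 := by
        rw [← Pi.single_smul, smul_eq_mul, mul_one]
      rw [h4, map_smul, smul_eq_mul]
    have h01 : ∀ a : ZMod 2, a ≠ 0 → a = 1 := by decide
    have hs : ∀ g : E → ZMod 2, ∑ e, (if e ∈ H then g e else 0) * φ (Pi.single e 1) =
        ∑ e ∈ H, g e * φ (Pi.single e 1) := by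
      intro g
      simp only [ite_mul, zero_mul]
      rw [sum_ite_mem, univ_inter]
    set D := H.filter (fun e => φ (Pi.single e 1) ≠ 0) with hD
    have hc : Cyc src dst D := by
      intro v
      have h5 : φ (L (Pi.single v 1)) =
          ∑ e ∈ H, ((if src e = v then 1 else 0) + (if dst e = v then 1 else 0)) *
            φ (Pi.single e 1) := by
        rw [hφ]
        refine Eq.trans ?_ (hs _)
        refine sum_congr rfl fun e _ => ?_
        change (if e ∈ H then (Pi.single v 1 : V → ZMod 2) (src e) +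
          (Pi.single v 1 : V → ZMod 2) (dst e) else 0) * _ = _
        rw [Pi.single_apply, Pi.single_apply]
      rw [← ZMod.natCast_eq_zero_iff_even, ← h3 (Pi.single v 1), h5, hD, sum_filter, Nat.cast_sum]
      refine sum_congr rfl fun e he => ?_
      by_cases h6 : φ (Pi.single e 1) = 0
      · rw [if_neg (not_not.mpr h6), h6]; simp
      · rw [if_pos h6, h01 _ h6]; push_cast; rw [mul_one]
    have h6 := hH D (filter_subset _ _) hc
    rw [← ZMod.natCast_eq_zero_iff_even] at h6
    apply h1
    have h7 : φ (fun e => if e ∈ H then (1 : ZMod 2) else 0) =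
        ∑ e ∈ H, (1 : ZMod 2) * φ (Pi.single e 1) := by
      rw [hφ]
      exact hs (fun _ => 1)
    rw [h7]
    refine Eq.trans ?_ h6
    rw [hD, card_filter, Nat.cast_sum]
    refine sum_congr rfl fun e he => ?_
    rw [one_mul]
    by_cases h6 : φ (Pi.single e 1) = 0
    · rw [if_neg (not_not.mpr h6), h6]; simp
    · rw [if_pos h6, h01 _ h6]; simp

/-- the sum of the degrees -/
theorem deg_sum (src dst : E → V) (F : Finset E) :
    ∑ v, ∑ e ∈ F, ((if src e = v then 1 else 0) + (if dst e = v then 1 else 0)) = 2 * F.card := by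
  rw [sum_comm]
  have h : ∀ e, (∑ v, ((if src e = v then 1 else 0) + (if dst e = v then 1 else 0))) = 2 := by
    intro e
    rw [sum_add_distrib, sum_ite_eq, sum_ite_eq, if_pos (mem_univ _), if_pos (mem_univ _)]
  rw [sum_congr rfl fun e _ => h e, sum_const, smul_eq_mul, mul_comm]

/-- **The complement of two of the matchings is bipartite.** -/
theorem s_four {src dst : E → V} (h : Six src dst)
    (h3 : ∀ v, ∑ e, ((if src e = v then 1 else 0) + (if dst e = v then 1 else 0)) = 3) :
    ∃ M₁ M₂ : Finset E,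
      (∀ v, ∑ e ∈ M₁, ((if src e = v then 1 else 0) + (if dst e = v then 1 else 0)) = 1) ∧
      (∀ v, ∑ e ∈ M₂, ((if src e = v then 1 else 0) + (if dst e = v then 1 else 0)) = 1) ∧
      ∃ c : V → ZMod 2, ∀ e, e ∉ M₁ ∪ M₂ → c (src e) ≠ c (dst e) := by
  obtain ⟨C, hC, h4⟩ := h
  refine ⟨(C 0)ᶜ, (C 1)ᶜ, fun v => compl_one (h3 v) (factor hC h4 v (h3 v) 0),
    fun v => compl_one (h3 v) (factor hC h4 v (h3 v) 1), ?_⟩
  obtain ⟨c, hc⟩ := two_col (src := src) (dst := dst) (C 0 ∩ C 1) (by
    intro D hD hDc
    have hv : ∀ v, 2 * ∑ e ∈ D ∩ C 2, ((if src e = v then 1 else 0) +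
        (if dst e = v then 1 else 0)) =
        ∑ e ∈ D, ((if src e = v then 1 else 0) + (if dst e = v then 1 else 0)) := by
      intro v
      have f0 := factor hC h4 v (h3 v) 0
      have f1 := factor hC h4 v (h3 v) 1
      have f2 := factor hC h4 v (h3 v) 2
      have f3 := h3 v
      have hev := hDc v
      set w : E → ℕ := fun e => (if src e = v then 1 else 0) + (if dst e = v then 1 else 0)
      change ∑ e ∈ C 0, w e = 2 at f0
      change ∑ e ∈ C 1, w e = 2 at f1
      change ∑ e ∈ C 2, w e = 2 at f2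
      change ∑ e, w e = 3 at f3
      change Even (∑ e ∈ D, w e) at hev
      change 2 * ∑ e ∈ D ∩ C 2, w e = ∑ e ∈ D, w e
      have a0 : ∑ e ∈ C 0 \ D, w e + ∑ e ∈ D, w e = ∑ e ∈ C 0, w e :=
        sum_sdiff (hD.trans inter_subset_left)
      have a1 : ∑ e ∈ C 1 \ D, w e + ∑ e ∈ D, w e = ∑ e ∈ C 1, w e :=
        sum_sdiff (hD.trans inter_subset_right)
      have a2 : ∑ e ∈ C 2 \ D, w e + ∑ e ∈ C 2 ∩ D, w e = ∑ e ∈ C 2, w e := by
        rw [← sum_filter_add_sum_filter_not (C 2) (· ∈ D), filter_mem_eq_inter, add_comm,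
          ← sdiff_eq_filter]
      have a3 : ∑ e ∈ univ \ D, w e + ∑ e ∈ D, w e = ∑ e, w e :=
        sum_sdiff (subset_univ _)
      have a4 : ∑ e ∈ univ \ D, w e ≤ ∑ e ∈ C 2 \ D, w e + (∑ e ∈ C 0 \ D, w e +
          ∑ e ∈ C 1 \ D, w e) := by
        have h5 : (univ \ D : Finset E) ⊆ (C 2 \ D) ∪ ((C 0 \ D) ∪ (C 1 \ D)) := by
          intro e he
          rw [mem_sdiff] at he
          simp only [mem_union, mem_sdiff]
          rcases three_cover h4 (i := 0) (j := 1) (k := 2) (by decide) (by decide) (by decide) e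
            with h | h | h
          · exact Or.inr (Or.inl ⟨h, he.2⟩)
          · exact Or.inr (Or.inr ⟨h, he.2⟩)
          · exact Or.inl ⟨h, he.2⟩
        refine (sum_le_sum_of_subset h5).trans ?_
        have h6 : ∀ S T : Finset E, ∑ e ∈ S ∪ T, w e ≤ ∑ e ∈ S, w e + ∑ e ∈ T, w e := by
          intro S T
          rw [← sum_union_inter]
          exact Nat.le_add_right _ _
        exact (h6 _ _).trans (Nat.add_le_add_left (h6 _ _) _)
      have a5 : ∑ e ∈ C 2 \ D, w e ≤ ∑ e ∈ univ \ D, w e :=
        sum_le_sum_of_subset (sdiff_subset_sdiff (subset_univ _) (Subset.refl _))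
      have a6 : ∑ e ∈ C 2 ∩ D, w e ≤ ∑ e ∈ D, w e := sum_le_sum_of_subset inter_subset_right
      rw [inter_comm]
      obtain ⟨k, hk⟩ := hev
      omega
    have h5 := deg_sum src dst D
    have h6 := deg_sum src dst (D ∩ C 2)
    rw [← sum_congr rfl fun v _ => hv v, ← mul_sum, h6] at h5
    exact ⟨(D ∩ C 2).card, by omega⟩)
  refine ⟨c, fun e he => hc e ?_⟩
  rw [mem_union, mem_compl, mem_compl] at he
  push Not at he
  exact mem_inter.mpr he

end Pool.Agent.TH455.TFA
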