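import Pool.Agent.TH676.A.Crit
import Pool.Agent.TH499.TF.Minor

set_option autoImplicit false
set_option linter.unusedSectionVars false

/-! # Consequences of covers of all edges four times by six cycles -/

namespace Pool.Agent.TH455.TFA

open Finset Pool.Agent.TH676.A
open Pool.Agent.TH499.TF (HasTD)

/-- all degrees are even, where a loop counts twice -/
def Cyc {V E : Type} [DecidableEq V] (src dst : E → V) (C : Finset E) : Prop :=
  ∀ v, Even (∑ e ∈ C, ((if src e = v then 1 else 0) + (if dst e = v then 1 else 0)))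

/-- six cycles cover every edge exactly four times -/
def Six {V E : Type} [DecidableEq V] [DecidableEq E] (src dst : E → V) : Prop :=
  ∃ C : Fin 6 → Finset E, (∀ i, Cyc src dst (C i)) ∧
    ∀ e, (univ.filter (fun i => e ∈ C i)).card = 4

variable {V E : Type} [Fintype V] [DecidableEq V] [Fintype E] [DecidableEq E]

/-- any three of the six cycles cover all edges -/
theorem three_cover {C : Fin 6 → Finset E} (h : ∀ e, (univ.filter (fun i => e ∈ C i)).card = 4)
    {i j k : Fin 6} (hij : i ≠ j) (hik : i ≠ k) (hjk : j ≠ k) (e : E) :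
    e ∈ C i ∨ e ∈ C j ∨ e ∈ C k := by
  by_contra hcon
  push Not at hcon
  obtain ⟨h1, h2, h3⟩ := hcon
  have h4 : univ.filter (fun i => e ∈ C i) ⊆ (univ : Finset (Fin 6)) \ {i, j, k} := by
    intro x hx
    rw [mem_filter] at hx
    rw [mem_sdiff, mem_insert, mem_insert, mem_singleton]
    refine ⟨mem_univ _, ?_⟩
    rintro (rfl | rfl | rfl)
    · exact h1 hx.2
    · exact h2 hx.2
    · exact h3 hx.2
  have h5 := card_le_card h4
  rw [h, card_sdiff_of_subset (subset_univ _), card_univ, Fintype.card_fin,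
    card_insert_of_notMem (by simp [hij, hik]), card_pair hjk] at h5
  omega

/-- the total length -/
theorem total {C : Fin 6 → Finset E} (h : ∀ e, (univ.filter (fun i => e ∈ C i)).card = 4) :
    ∑ i, (C i).card = 4 * Fintype.card E := by
  have h1 : ∀ i, (C i).card = ∑ e, if e ∈ C i then 1 else 0 := by
    intro i
    rw [sum_ite_mem, univ_inter, sum_const, smul_eq_mul, mul_one]
  rw [sum_congr rfl fun i _ => h1 i, sum_comm]
  have h2 : ∀ e, (∑ i, if e ∈ C i then 1 else 0) = 4 := by
    intro e
    rw [← h e, card_filter]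
  rw [sum_congr rfl fun e _ => h2 e, sum_const, card_univ, smul_eq_mul, mul_comm]

/-- three of the six cycles have total length at least twice the number of edges -/
theorem two_m {src dst : E → V} (h : Six src dst) :
    ∃ C₁ C₂ C₃ : Finset E, Cyc src dst C₁ ∧ Cyc src dst C₂ ∧ Cyc src dst C₃ ∧
      C₁ ∪ C₂ ∪ C₃ = univ ∧ 2 * Fintype.card E ≤ C₁.card + C₂.card + C₃.card := by
  obtain ⟨C, hC, h4⟩ := h
  have ht := total h4
  rw [Fin.sum_univ_six] at ht
  have hu : ∀ i j k : Fin 6, i ≠ j → i ≠ k → j ≠ k → C i ∪ C j ∪ C k = univ := by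
    intro i j k hij hik hjk
    ext e
    simp only [mem_union, mem_univ, iff_true]
    rcases three_cover h4 hij hik hjk e with h | h | h
    · exact Or.inl (Or.inl h)
    · exact Or.inl (Or.inr h)
    · exact Or.inr h
  by_cases hc : 2 * Fintype.card E ≤ (C 0).card + (C 1).card + (C 2).card
  · exact ⟨C 0, C 1, C 2, hC _, hC _, hC _, hu 0 1 2 (by decide) (by decide) (by decide), hc⟩
  · refine ⟨C 3, C 4, C 5, hC _, hC _, hC _, hu 3 4 5 (by decide) (by decide) (by decide), ?_⟩
    omega

theorem six_two (s : Fin 6 → ℕ) (h : ∀ j, s j ≤ 2)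
    (hs : s 0 + s 1 + s 2 + s 3 + s 4 + s 5 = 12) (i : Fin 6) : s i = 2 := by
  have a0 := h 0
  have a1 := h 1
  have a2 := h 2
  have a3 := h 3
  have a4 := h 4
  have a5 := h 5
  match i with
  | 0 => omega
  | 1 => omega
  | 2 => omega
  | 3 => omega
  | 4 => omega
  | 5 => omega

/-- in a cubic graph the six cycles are 2-factors -/
theorem factor {src dst : E → V} {C : Fin 6 → Finset E} (hC : ∀ i, Cyc src dst (C i))
    (h4 : ∀ e, (univ.filter (fun i => e ∈ C i)).card = 4) (v : V)
    (h3 : ∑ e, ((if src e = v then 1 else 0) + (if dst e = v then 1 else 0)) = 3) (i : Fin 6) :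
    ∑ e ∈ C i, ((if src e = v then 1 else 0) + (if dst e = v then 1 else 0)) = 2 := by
  set d : E → ℕ := fun e => (if src e = v then 1 else 0) + (if dst e = v then 1 else 0) with hd
  have hle : ∀ j, ∑ e ∈ C j, d e ≤ 2 := by
    intro j
    have h1 : ∑ e ∈ C j, d e ≤ ∑ e, d e :=
      sum_le_sum_of_subset (subset_univ _)
    have h2 : ∑ e, d e = 3 := h3
    have h5 : Even (∑ e ∈ C j, d e) := hC j v
    rw [h2] at h1
    obtain ⟨k, hk⟩ := h5
    omega
  have hs : ∑ j, ∑ e ∈ C j, d e = 12 := by
    have h1 : ∀ j, ∑ e ∈ C j, d e = ∑ e, if e ∈ C j then d e else 0 := by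
      intro j
      rw [sum_ite_mem, univ_inter]
    rw [sum_congr rfl fun j _ => h1 j, sum_comm]
    have h2 : ∀ e, (∑ j, if e ∈ C j then d e else 0) = 4 * d e := by
      intro e
      rw [← sum_filter, sum_const, h4, smul_eq_mul]
    rw [sum_congr rfl fun e _ => h2 e, ← mul_sum]
    have h2 : ∑ e, d e = 3 := h3
    rw [h2]
    rfl
  rw [Fin.sum_univ_six] at hs
  exact six_two (fun j => ∑ e ∈ C j, d e) hle hs i

/-- covers of every edge exactly `4 q` times by `6 q` cycles -/
theorem mult {src dst : E → V} (h : Six src dst) (q : ℕ) :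
    ∃ C : Fin (6 * q) → Finset E, (∀ i, Cyc src dst (C i)) ∧
      ∀ e, (univ.filter (fun i => e ∈ C i)).card = 4 * q := by
  obtain ⟨C, hC, h4⟩ := h
  refine ⟨fun i => C (finProdFinEquiv.symm i).1, fun i => hC _, fun e => ?_⟩
  have h1 : (univ.filter (fun i : Fin (6 * q) => e ∈ C (finProdFinEquiv.symm i).1)).card =
      (univ.filter (fun p : Fin 6 × Fin q => e ∈ C p.1)).card := by
    refine card_bij (fun i _ => finProdFinEquiv.symm i) ?_ ?_ ?_
    · intro i hi
      simpa using hi
    · intro i _ j _ hij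
      exact finProdFinEquiv.symm.injective hij
    · intro p hp
      refine ⟨finProdFinEquiv p, ?_, Equiv.symm_apply_apply _ _⟩
      rw [mem_filter] at hp ⊢
      refine ⟨mem_univ _, ?_⟩
      rw [Equiv.symm_apply_apply]
      exact hp.2
  have h2 : univ.filter (fun p : Fin 6 × Fin q => e ∈ C p.1) =
      (univ.filter (fun i => e ∈ C i)) ×ˢ (univ : Finset (Fin q)) := by
    ext p
    simp
  rw [h1, h2, card_product, h4, card_univ, Fintype.card_fin]

end Pool.Agent.TH455.TFA
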