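import Pool.Agent.TH455.TFA.Six

set_option autoImplicit false
set_option linter.unusedSectionVars false

/-! # From flows to cycles; isthmuses and tree decompositions -/

namespace Pool.Agent.TH455.TFA

open Finset Pool.Agent.TH676.A
open Pool.Agent.TH499.TF (HasTD)

variable {V E : Type} [Fintype V] [DecidableEq V] [Fintype E] [DecidableEq E]

/-- six cycles from a flow -/
theorem six_of {Γ : Type} [AddCommGroup Γ] {A : Γ → Prop} (χ : Fin 6 → Γ →+ ZMod 2)
    (hχ : ∀ x, A x → (univ.filter (fun i => χ i x = 1)).card = 4) {src dst : E → V}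
    (h : FlowOn A src dst ∅ ∅) : Six src dst := by
  obtain ⟨f, hf, _, hA⟩ := h
  refine ⟨fun i => univ.filter (fun e => χ i (f e) = 1), fun i v => ?_, fun e => ?_⟩
  · have h01 : ∀ a : ZMod 2, a ≠ 1 → a = 0 := by decide
    rw [← ZMod.natCast_eq_zero_iff_even]
    have h := congrArg (χ i) (hf v)
    unfold bd at h
    rw [map_sum, map_zero] at h
    refine Eq.trans ?_ h
    rw [sum_filter]
    push_cast
    refine sum_congr rfl fun e _ => ?_
    rw [map_add]
    by_cases h1 : χ i (f e) = 1
    · rw [if_pos h1]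
      split_ifs <;> simp [h1]
    · rw [if_neg h1]
      have h2 := h01 _ h1
      split_ifs <;> simp [h2]
  · have h1 := hχ (f e) (hA e (notMem_empty _) (notMem_empty _))
    rw [← h1]
    congr 1
    ext i
    simp

/-- the simple graph in which two distinct vertices are adjacent if an edge in `F` joins them -/
def under {V E : Type} (src dst : E → V) (F : Set E) : SimpleGraph V where
  Adj x y := x ≠ y ∧ ∃ e ∈ F, (src e = x ∧ dst e = y) ∨ (src e = y ∧ dst e = x)
  symm := ⟨fun _ _ h => ⟨h.1.symm, h.2.imp fun _ he => ⟨he.1, he.2.symm⟩⟩⟩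
  loopless := ⟨fun _ h => h.1 rfl⟩

/-- the edge `e` is an isthmus: its ends are not connected by the other edges -/
def IsIsthmus {V E : Type} (src dst : E → V) (e : E) : Prop :=
  ¬ (under src dst {e' | e' ≠ e}).Reachable (src e) (dst e)

/-- tree decomposition of the graph, with bags `bag i` for the nodes `i` of the tree `T` -/
def IsTreeDecomposition {V E ι : Type} (src dst : E → V) (T : SimpleGraph ι)
    (bag : ι → Finset V) : Prop :=
  T.IsTree ∧ (∀ v, ∃ i, v ∈ bag i) ∧ (∀ e, ∃ i, src e ∈ bag i ∧ dst e ∈ bag i) ∧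
    ∀ (i j : ι) (p : T.Walk i j), p.IsPath → ∀ k ∈ p.support, ∀ v, v ∈ bag i → v ∈ bag j →
      v ∈ bag k

/-- the treewidth is at most `k` -/
def TreewidthLE {V E : Type} (src dst : E → V) (k : ℕ) : Prop :=
  ∃ (ι : Type) (_ : Fintype ι) (T : SimpleGraph ι) (bag : ι → Finset V),
    IsTreeDecomposition src dst T bag ∧ ∀ i, (bag i).card ≤ k + 1

theorem br_of {src dst : E → V} (hI : ∀ e, ¬ IsIsthmus src dst e) : Br src dst ∅ ∅ := by
  classical
  intro Y _ hY
  rw [sdiff_empty] at hY
  obtain ⟨e, he⟩ := card_eq_one.mp hY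
  apply hI e
  intro hr
  have hstay : ∀ x y, (under src dst {e' | e' ≠ e}).Reachable x y → (x ∈ Y ↔ y ∈ Y) := by
    rintro x y ⟨p⟩
    induction p with
    | nil => exact Iff.rfl
    | cons hadj _ ih =>
      refine Iff.trans ?_ ih
      obtain ⟨_, e', he', h1⟩ := hadj
      have hn : e' ∉ crs src dst Y := by
        rw [he, mem_singleton]; exact he'
      rw [mem_crs, not_not] at hn
      rcases h1 with ⟨h2, h3⟩ | ⟨h2, h3⟩
      · rw [h2, h3] at hn; exact hn
      · rw [h2, h3] at hn; exact hn.symm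
  have hm : e ∈ crs src dst Y := by rw [he]; exact mem_singleton_self _
  rw [mem_crs] at hm
  exact hm (hstay _ _ hr)

theorem td_of {src dst : E → V} (hT : TreewidthLE src dst 4) : HasTD 5 src dst := by
  obtain ⟨ι, _, T, bag, ⟨t1, _, t2, t3⟩, t4⟩ := hT
  exact TH499.TF.HasTD.of_tree t1 t3 t2 t4

end Pool.Agent.TH455.TFA
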